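import Pool.Agent.K3h5.IB.Stm

/-!
# IB brick MEAS1: measurability of the walks (helper28; specification by helper5)
-/

set_option autoImplicit false

open MeasureTheory Filter Topology

namespace Pool.Agent.K3h28.IB

open Pool.Agent.K3h5.IB

variable {d : ℕ}

section general

variable {X : Type*} [MeasurableSpace X]

/-- a map into a countable discrete space with measurable fibres is measurable -/
theorem meas_of_fib {α : Type*} [MeasurableSpace α] [Countable α] {f : X → α}
    (h : ∀ a, MeasurableSet {x | f x = a}) : Measurable f :=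
  measurable_to_countable' fun a => h a

/-- the fibres of a composition, countable decomposition over the inner map -/
theorem fib_comp {α β : Type*} [Countable α] {T : X → α} {F : α → X → β}
    (hT : ∀ a, MeasurableSet {x | T x = a}) (hF : ∀ a b, MeasurableSet {x | F a x = b}) (b : β) :
    MeasurableSet {x | F (T x) x = b} := by
  have : {x | F (T x) x = b} = ⋃ a, ({x | T x = a} ∩ {x | F a x = b}) := by
    ext x
    simp only [Set.mem_ofPred_eq, Set.mem_iUnion, Set.mem_inter_iff]
    constructor
    · intro h
      exact ⟨T x, rfl, h⟩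
    · rintro ⟨a, rfl, h⟩
      exact h
  rw [this]
  exact MeasurableSet.iUnion fun a => (hT a).inter (hF a b)

/-- infima of sets of naturals -/
theorem fib_sInf {P : X → ℕ → Prop} (hP : ∀ n, MeasurableSet {x | P x n}) (k : ℕ) :
    MeasurableSet {x | sInf {n | P x n} = k} := by
  have : {x | sInf {n | P x n} = k} =
      ({x | P x k} ∩ ⋂ j : Fin k, {x | P x j}ᶜ) ∪ ({x | k = 0} ∩ ⋂ n, {x | P x n}ᶜ) := by
    ext x
    simp only [Set.mem_ofPred_eq, Set.mem_union, Set.mem_inter_iff, Set.mem_iInter,
      Set.mem_compl_iff]
    constructor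
    · intro h
      by_cases hne : {n | P x n}.Nonempty
      · left
        refine ⟨?_, fun j hj => ?_⟩
        · have := Nat.sInf_mem hne
          rw [h] at this
          exact this
        · have h1 := Nat.notMem_of_lt_sInf (s := {n | P x n}) (m := j) (by rw [h]; exact j.2)
          exact h1 hj
      · right
        rw [Set.not_nonempty_iff_eq_empty] at hne
        refine ⟨?_, fun n hn => ?_⟩
        · rw [hne, Nat.sInf_empty] at h
          exact h.symm
        · have : n ∈ {n | P x n} := hn
          rw [hne] at this
          exact this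
    · rintro (⟨h1, h2⟩ | ⟨h1, h2⟩)
      · apply le_antisymm
        · exact Nat.sInf_le h1
        · by_contra hlt
          have hne : {n | P x n}.Nonempty := ⟨k, h1⟩
          exact h2 ⟨sInf {n | P x n}, not_le.1 hlt⟩ (Nat.sInf_mem hne)
      · have : {n | P x n} = ∅ := by
          ext n
          simp only [Set.mem_ofPred_eq, Set.mem_empty_iff_false, iff_false]
          exact h2 n
        rw [this, Nat.sInf_empty, h1]
  rw [this]
  refine MeasurableSet.union ((hP k).inter ?_) (MeasurableSet.inter ?_ ?_)
  · exact MeasurableSet.iInter fun j => (hP j).compl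
  · exact MeasurableSet.const _
  · exact MeasurableSet.iInter fun j => (hP j).compl

/-- the fibres of the histories -/
theorem fib_hist {s : X → V d → ℕ → V d} (hs : ∀ v m w, MeasurableSet {x | s x v m = w}) (n : ℕ) :
    ∀ l : List (V d), MeasurableSet {x | hist (s x) n = l} := by
  induction n with
  | zero =>
    intro l
    simp only [hist]
    exact MeasurableSet.const _
  | succ n ih =>
    intro l
    cases l with
    | nil =>
      have : {x | hist (s x) (n + 1) = []} = ∅ := by
        ext x
        simp [hist]
      rw [this]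
      exact MeasurableSet.empty
    | cons a l =>
      have : {x | hist (s x) (n + 1) = a :: l} =
          {x | hist (s x) n = l} ∩ {x | s x (l.headD 0) (l.tail.count (l.headD 0)) = a} := by
        ext x
        simp only [hist, Set.mem_ofPred_eq, Set.mem_inter_iff, List.cons.injEq]
        constructor
        · rintro ⟨h1, rfl⟩
          exact ⟨rfl, h1⟩
        · rintro ⟨rfl, h1⟩
          exact ⟨h1, rfl⟩
      rw [this]
      exact (ih l).inter (hs _ _ _)

/-- the fibres of the routes -/
theorem fib_route {s : X → V d → ℕ → V d} (hs : ∀ v m w, MeasurableSet {x | s x v m = w}) (n : ℕ)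
    (v : V d) : MeasurableSet {x | route (s x) n = v} := by
  have := fib_comp (T := fun x => hist (s x) n) (F := fun l _ => l.headD 0)
    (fib_hist hs n) (fun l b => MeasurableSet.const _) v
  exact this

/-- the fibres of a trace -/
theorem meas_trace {y : X → ℕ → V d} (hy : ∀ n v, MeasurableSet {x | y x n = v}) (a : V d × D d) :
    MeasurableSet {x | a ∈ trace (y x)} := by
  have : {x | a ∈ trace (y x)} = ⋃ n, (({x | y x n = a.1} ∩ {x | y x (n + 1) = a.1 + vec a.2}) ∪
      ({x | y x (n + 1) = a.1} ∩ {x | y x n = a.1 + vec a.2})) := by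
    ext x
    simp only [trace, Set.mem_ofPred_eq, Set.mem_iUnion, Set.mem_union, Set.mem_inter_iff]
  rw [this]
  exact MeasurableSet.iUnion fun n => ((hy _ _).inter (hy _ _)).union ((hy _ _).inter (hy _ _))

/-- the fibres of the neighbourhoods -/
theorem fib_nbrs {Z : X → Set (V d × D d)} (hZ : ∀ a, MeasurableSet {x | a ∈ Z x}) (v : V d)
    (E : Finset (D d)) : MeasurableSet {x | nbrs (Z x) v = E} := by
  have : {x | nbrs (Z x) v = E} = ⋂ e : D d, {x | (v, e) ∈ Z x ↔ e ∈ E} := by
    ext x
    simp only [nbrs, Set.mem_ofPred_eq, Set.mem_iInter, Finset.ext_iff, Finset.mem_filter,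
      Finset.mem_univ, true_and]
  rw [this]
  refine MeasurableSet.iInter fun e => ?_
  by_cases he : e ∈ E
  · simp only [he, iff_true]
    exact hZ (v, e)
  · simp only [he, iff_false]
    exact (hZ (v, e)).compl

end general

theorem meas_ev (k : ℕ) (o : Option (J d)) : Measurable fun x : ℕ → S d => x k o :=
  (measurable_pi_apply o).comp (measurable_pi_apply k)

theorem fib_ev {β : Type*} (k : ℕ) (o : Option (J d)) (f : D d → β) (b : β) :
    MeasurableSet {x : ℕ → S d | f (x k o) = b} := by
  have : MeasurableSet {e : D d | f e = b} := MeasurableSet.of_discrete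
  exact meas_ev k o this

theorem fib_path0 (n : ℕ) : ∀ v : V d, MeasurableSet {x : ℕ → S d | path0 x n = v} := by
  induction n with
  | zero =>
    intro v
    simp only [path0, Finset.range_zero, Finset.sum_empty]
    exact MeasurableSet.const _
  | succ n ih =>
    intro v
    have h := fib_comp (T := fun x : ℕ → S d => path0 x n)
      (F := fun (w : V d) (x : ℕ → S d) => w + vec (x n none)) ih
      (fun w b => fib_ev n none (fun e => w + vec e) b) v
    have e : ∀ x : ℕ → S d, path0 x (n + 1) = path0 x n + vec (x n none) := fun x => by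
      simp only [path0, Finset.sum_range_succ]
    simp only [e]
    exact h

theorem fib_idx (v : V d) (k : ℕ) : MeasurableSet {x : ℕ → S d | idx x v = k} :=
  fib_sInf (P := fun x n => path0 x n = v) (fun n => fib_path0 n v) k

theorem fib_stk {Z : (ℕ → S d) → Set (V d × D d)} (hZ : ∀ a, MeasurableSet {x | a ∈ Z x}) (i : ℕ)
    (v : V d) (m : ℕ) (w : V d) : MeasurableSet {x : ℕ → S d | stk x i (Z x) v m = w} := by
  have h := fib_comp (T := fun x : ℕ → S d => idx x v)
    (F := fun (k : ℕ) (x : ℕ → S d) => v + vec (x k (some (i, m, nbrs (Z x) v))))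
    (fib_idx v) (fun k b => ?_) w
  · exact h
  · exact fib_comp (T := fun x : ℕ → S d => nbrs (Z x) v)
      (F := fun (E : Finset (D d)) (x : ℕ → S d) => v + vec (x k (some (i, m, E))))
      (fib_nbrs hZ v) (fun E b => fib_ev k (some (i, m, E)) (fun e => v + vec e) b) b

theorem fib_XX (i : ℕ) : ∀ (n : ℕ) (v : V d), MeasurableSet {x : ℕ → S d | XX x i n = v} := by
  induction i with
  | zero => exact fib_path0
  | succ i ih =>
    intro n v
    exact fib_route (s := fun x : ℕ → S d => stk x (i + 1) (trace (XX x i)))
      (fib_stk (fun a => meas_trace ih a) (i + 1)) n v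

theorem meas_graph (i : ℕ) (a : V d × D d) :
    MeasurableSet {x : ℕ → S d | a ∈ graph (XX x) i} := by
  cases i with
  | zero =>
    simp only [graph, Set.mem_univ]
    exact MeasurableSet.const _
  | succ i => exact meas_trace (fib_XX i) a

theorem meas_graphInf (a : V d × D d) : MeasurableSet {x : ℕ → S d | a ∈ graphInf (XX x)} := by
  simp only [graphInf, Set.mem_iInter]
  have : {x : ℕ → S d | ∀ i, a ∈ graph (XX x) i} = ⋂ i, {x | a ∈ graph (XX x) i} := by
    ext x
    simp
  rw [this]
  exact MeasurableSet.iInter fun i => meas_graph i a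

theorem fib_YY (n : ℕ) (v : V d) : MeasurableSet {x : ℕ → S d | YY x n = v} :=
  fib_route (s := fun x : ℕ → S d => stk x 0 (graphInf (XX x)))
    (fib_stk (fun a => meas_graphInf a) 0) n v

/-- brick MEAS1, without ROUTE -/
theorem meas1 : S_MEAS1 := fun _ =>
  ⟨fun i n => meas_of_fib (fib_XX i n), fun n => meas_of_fib (fib_YY n), meas_graphInf,
    fun i a => meas_graph i a, fun v => meas_of_fib (fib_idx v)⟩

/-- brick MEAS1 -/
theorem t_MEAS1 : S_ROUTE → S_MEAS1 := fun _ => meas1

end Pool.Agent.K3h28.IB
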